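import Pool.Agent.V7H41.CC.Spec

set_option autoImplicit false

/-! From permutations to two injective position functions on a set. -/

namespace Pool.Agent.V7H65.CC

open Finset
open Pool.Agent.V7H41.CC

theorem exists_rank {α : Type} (p : α → ℕ) (X : Finset α) (hp : Set.InjOn p X) :
    ∃ e : Fin X.card → α, (∀ i, e i ∈ X) ∧ (StrictMono fun i => p (e i)) ∧
      ∀ x ∈ X, ∃ i, p (e i) = p x := by
  classical
  have hc : (X.image p).card = X.card := Finset.card_image_of_injOn hp
  have h1 : ∀ i : Fin X.card, ∃ x ∈ X, p x = (X.image p).orderEmbOfFin hc i := by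
    intro i
    have h2 := (X.image p).orderEmbOfFin_mem hc i
    rw [Finset.mem_image] at h2
    exact h2
  choose e he1 he2 using h1
  refine ⟨e, he1, ?_, ?_⟩
  · intro i j hij
    show p (e i) < p (e j)
    rw [he2, he2]
    exact ((X.image p).orderEmbOfFin hc).strictMono hij
  · intro x hx
    have h2 : p x ∈ Set.range ((X.image p).orderEmbOfFin hc) := by
      rw [Finset.range_orderEmbOfFin]
      exact Finset.mem_coe.2 (Finset.mem_image_of_mem p hx)
    obtain ⟨i, hi⟩ := h2
    exact ⟨i, by rw [he2, hi]⟩

theorem t_TRANS : S_TRANS := by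
  classical
  intro α p q X m hp hq
  obtain ⟨e, he, hem, -⟩ := exists_rank p X hp
  obtain ⟨g, hg, hgm, hgs⟩ := exists_rank q X hq
  choose σ' hσ' using fun i => hgs (e i) (he i)
  have heinj : Function.Injective e := by
    intro i j h
    exact hem.injective (by show p (e i) = p (e j); rw [h])
  have hinj : Function.Injective σ' := by
    intro i j h
    apply heinj
    apply hq (he i) (he j)
    rw [← hσ' i, ← hσ' j, h]
  let σ : Equiv.Perm (Fin X.card) :=
    Equiv.ofBijective σ' (Finite.injective_iff_bijective.1 hinj)
  have hσlt : ∀ {i j}, σ i < σ j → q (e i) < q (e j) := by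
    intro i j h
    rw [← hσ' i, ← hσ' j]
    exact hgm h
  have hplt : ∀ {i j}, i < j → p (e i) < p (e j) := fun h => hem h
  refine ⟨σ, ?_⟩
  let pr : Fin X.card × Fin X.card → Finset α := fun x => {e x.1, e x.2}
  let Φ : (Fin m → Fin X.card × Fin X.card) → Finset (Finset α) :=
    fun f => univ.image fun j => pr (f j)
  let key : Finset α → ℕ := fun A => ∑ a ∈ A, q a
  have hkey : ∀ x : Fin X.card × Fin X.card, x.1 < x.2 →
      key (pr x) = q (e x.1) + q (e x.2) := by
    intro x hx
    exact Finset.sum_pair (heinj.ne hx.ne)
  have hmono : ∀ f, IsT σ m f → StrictMono fun j => key (pr (f j)) := by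
    intro f hf i j hij
    show key (pr (f i)) < key (pr (f j))
    rw [hkey _ (hf.1 i), hkey _ (hf.1 j)]
    obtain ⟨h1, h2, h3, h4⟩ := hf.2.2 i j hij
    have := hσlt h1
    have := hσlt h4
    omega
  have hfin : {Q | IsSys p q X m Q}.Finite := by
    refine Set.Finite.subset (Finset.finite_toSet (X.powerset.powerset)) ?_
    intro Q hQ
    rw [Finset.mem_coe, Finset.mem_powerset]
    intro A hA
    rw [Finset.mem_powerset]
    exact (hQ.2.1 A hA).1
  refine Set.ncard_le_ncard_of_injOn Φ ?_ ?_ hfin
  · intro f hf
    have hf' : IsT σ m f := hf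
    have hsep : ∀ i j, i ≠ j → Sep p (pr (f i)) (pr (f j)) := by
      intro i j hij
      have a1 := hplt (hf'.1 i)
      have a2 := hplt (hf'.1 j)
      rcases hf'.2.1 i j hij with h | h
      · left
        have a3 := hplt h
        intro a ha b hb
        rw [Finset.mem_insert, Finset.mem_singleton] at ha hb
        rcases ha with rfl | rfl <;> rcases hb with rfl | rfl <;> omega
      · right
        have a3 := hplt h
        intro a ha b hb
        rw [Finset.mem_insert, Finset.mem_singleton] at ha hb
        rcases ha with rfl | rfl <;> rcases hb with rfl | rfl <;> omega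
    refine ⟨?_, ?_, ?_⟩
    · show (univ.image fun j => pr (f j)).card = m
      rw [Finset.card_image_of_injective, Finset.card_univ, Fintype.card_fin]
      intro i j h
      exact (hmono f hf').injective (by show key (pr (f i)) = key (pr (f j)); rw [show pr (f i) = pr (f j) from h])
    · intro A hA
      obtain ⟨j, -, rfl⟩ := Finset.mem_image.1 hA
      refine ⟨?_, Finset.card_pair (heinj.ne (hf'.1 j).ne)⟩
      intro a ha
      rw [Finset.mem_insert, Finset.mem_singleton] at ha
      rcases ha with rfl | rfl
      · exact he _
      · exact he _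
    · intro A hA B hB hAB
      obtain ⟨i, -, rfl⟩ := Finset.mem_image.1 hA
      obtain ⟨j, -, rfl⟩ := Finset.mem_image.1 hB
      have hij : i ≠ j := fun h => hAB (by rw [h])
      refine ⟨hsep i j hij, ?_⟩
      rcases lt_or_gt_of_ne hij with h | h
      · left
        obtain ⟨h1, h2, h3, h4⟩ := hf'.2.2 i j h
        have b1 := hσlt h1
        have b2 := hσlt h2
        have b3 := hσlt h3
        have b4 := hσlt h4
        intro a ha b hb
        rw [Finset.mem_insert, Finset.mem_singleton] at ha hb
        rcases ha with rfl | rfl <;> rcases hb with rfl | rfl <;> assumption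
      · right
        obtain ⟨h1, h2, h3, h4⟩ := hf'.2.2 j i h
        have b1 := hσlt h1
        have b2 := hσlt h2
        have b3 := hσlt h3
        have b4 := hσlt h4
        intro a ha b hb
        rw [Finset.mem_insert, Finset.mem_singleton] at ha hb
        rcases ha with rfl | rfl <;> rcases hb with rfl | rfl <;> assumption
  · intro f hf f' hf' h
    have hf1 : IsT σ m f := hf
    have hf2 : IsT σ m f' := hf'
    have h0 : (univ.image fun j => pr (f j)) = univ.image fun j => pr (f' j) := h
    have hr : Set.range (fun j => key (pr (f j))) = Set.range fun j => key (pr (f' j)) := by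
      ext x
      constructor
      · rintro ⟨j, rfl⟩
        have h1 : pr (f j) ∈ univ.image fun j => pr (f' j) := by
          rw [← h0]
          exact Finset.mem_image_of_mem _ (mem_univ _)
        obtain ⟨i, -, hi⟩ := Finset.mem_image.1 h1
        exact ⟨i, by show key (pr (f' i)) = key (pr (f j)); rw [hi]⟩
      · rintro ⟨j, rfl⟩
        have h1 : pr (f' j) ∈ univ.image fun j => pr (f j) := by
          rw [h0]
          exact Finset.mem_image_of_mem _ (mem_univ _)
        obtain ⟨i, -, hi⟩ := Finset.mem_image.1 h1
        exact ⟨i, by show key (pr (f i)) = key (pr (f' j)); rw [hi]⟩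
    have hk := ((hmono f hf1).range_inj (hmono f' hf2)).1 hr
    funext j
    have hp1 : pr (f j) = pr (f' j) := by
      have h1 : pr (f j) ∈ univ.image fun j => pr (f' j) := by
        rw [← h0]
        exact Finset.mem_image_of_mem _ (mem_univ _)
      obtain ⟨i, -, hi⟩ := Finset.mem_image.1 h1
      have h2 : key (pr (f' i)) = key (pr (f' j)) := by
        rw [hi]
        exact congrFun hk j
      have h3 : i = j := (hmono f' hf2).injective h2
      rw [← hi, h3]
    have c1 := hf1.1 j
    have c2 := hf2.1 j
    have d1 : e (f j).1 ∈ pr (f' j) := by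
      rw [← hp1]
      exact Finset.mem_insert_self _ _
    have d2 : e (f j).2 ∈ pr (f' j) := by
      rw [← hp1]
      exact Finset.mem_insert_of_mem (Finset.mem_singleton_self _)
    rw [Finset.mem_insert, Finset.mem_singleton] at d1 d2
    have hne1 := heinj.ne c1.ne
    rcases d1 with d1 | d1 <;> rcases d2 with d2 | d2
    · exact absurd (d1.trans d2.symm) hne1
    · exact Prod.ext (heinj d1) (heinj d2)
    · exfalso
      have e1 := heinj d1
      have e2 := heinj d2
      rw [e1, e2] at c1
      exact absurd c1 (not_lt.2 c2.le)
    · exact absurd (d1.trans d2.symm) hne1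

end Pool.Agent.V7H65.CC
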